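import Pool.Agent.Lib.MP_743d1e_nt.BD.ALL

/-!
# Unramified symbols `{f, g}` of functions of bounded degree, uniformly for all curves

Theorem. For all `d`, `D` there is a constant `C(d, D)` such that for every number field `F` of degree at most `D` and
EVERY curve `X` over `F`, with function field `K` (`F` algebraically closed in `K`), the symbols `{f, g}`, where
`f`, `g` are arbitrary functions of degree at most `d` on `X` and all tame symbols at the closed points are torsion, have
at most `C(d, D)` classes in `K_2` of the function field `L` of `X` over the algebraic closure `k` of `F`, modulo torsion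
and `K_2(k)`; in particular there are at most `C(d, D)` different regulators of such symbols.

Proof. (1) The tame symbols are killed by a number `N` that depends only on `d`, `D`, and the theorem holds for all
algebraically closed fields `k` of characteristic zero (bound depending on `d`, `N`).
(2) Let `K₁ = K₀ k₁` be a constant extension of the function field `K₀ / k₀`, and `f`, `g` in `K₁` with torsion tame symbols
over `k₁`. Then `{f, g}` is equivalent to some `{f', g'}` with `f'`, `g'` in `K₀`. One may assume that `k₁` has
transcendence degree one over `k₀`, `D` the derivation of `K₁ / K₀` and `d` that of `K₁ / k₁`. The differential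
`((df / f) (Dg / g) - (Df / f) (dg / g)) dz` is regular, `= ∑ λ_i h_i dz`. A study of the poles of the `λ_i` shows that `f`
and `g` are algebraically dependent over `k₀`. So `{f, g}` comes from a curve `E₀` over `k₀` with a map to `K₁`. If the
map varies with the parameter, the curve has at most one regular differential up to constants, and an involution of
the curve `E₀ k₁` turns the varying map into a constant one and `{f, g}` into `- {f, g}`.
(3) Ultraproducts: a sequence of pairs on one curve has a limit over the ultrapower, and by (2) two of its members
are equivalent; the same for a sequence of curves gives the uniform bound.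
(4) A closed path of complex embeddings of `K` extends to `L`, and the regulator of `K_2(k)` is zero.
-/

set_option autoImplicit false

namespace Pool.Agent.Results.MP_743d1e_nt.BoundedDegreeSymbols

open _root_.MP743d1e _root_.MP743d1e.CY _root_.MP743d1e.GX _root_.MP743d1e.BD
  _root_.MP743d1e.BD.ALL IntermediateField

/-- `K` is the function field of a curve over `F`, and `F` is algebraically closed in `K`. -/
structure IsCurveOver (F K : Type) [Field F] [Field K] [Algebra F K] : Prop where
  /-- `K` is a finite extension of `F(t)`, `t` transcendental. -/
  fn : Fun1 F K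
  /-- The constants. -/
  cl : ∀ z : K, IsAlgebraic F z → ∃ c : F, z = algebraMap F K c

/-- `f` and `g` have degree at most `d` (the degree of `f` is `[K : F(f)]`, and `0` for constants), and
all tame symbols of `{f, g}` at closed points are torsion. -/
structure UnrPair (F : Type) {K : Type} [Field F] [Field K] [Algebra F K] (d : ℕ) (f g : Kˣ) :
    Prop where
  deg₁ : DegLE F d (f : K)
  deg₂ : DegLE F d (g : K)
  tame : TorTameF F (sym f g)

/-- The regulator of `{f, g}` along the path `γ`. -/
noncomputable def regSym {K : Type} [Field K] (γ : Loop K) (f g : Kˣ) : ℝ :=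
  regInt (fun θ => γ.ev θ f) (fun θ => γ.ev θ g)

/-- A positive multiple of the image of `{f, g} - {f', g'}` in `K2 L` is in the image of `K2 k`. -/
def SameClass (k : Type) {K : Type} (L : Type) [Field k] [Field K] [Field L] [Algebra k L]
    [Algebra K L] (f g f' g' : Kˣ) : Prop :=
  EquivK k (mk2 K L (sym f g)) (mk2 K L (sym f' g'))

theorem result (d D : ℕ) : ∃ C : ℕ,
    ∀ (F K k L : Type) [Field F] [NumberField F] [Field K] [Field k] [Field L] [Algebra F K]
      [Algebra F k] [Algebra F L] [Algebra K L] [Algebra k L] [IsScalarTower F K L]
      [IsScalarTower F k L] [IsAlgClosure F k],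
      Module.finrank ℚ F ≤ D → IsCurveOver F K →
      IntermediateField.adjoin k (Set.range (algebraMap K L)) = ⊤ →
      ∀ f g : Fin (C + 1) → Kˣ, (∀ i, UnrPair F d (f i) (g i)) →
        ∃ i j, i ≠ j ∧ SameClass k L (f i) (g i) (f j) (g j) ∧
          ∀ γ : Loop K, regSym γ (f i) (g i) = regSym γ (f j) (g j) := by
  obtain ⟨C, hC⟩ := finBDR aTB aNFD aNFT aLDK aLPX aRCO d D
  refine ⟨C, ?_⟩
  intro F K k L _ _ _ _ _ _ _ _ _ _ _ _ _ hD hK hgen f g h
  obtain ⟨i, j, hij, hE, hr⟩ := hC F K k L hD hK.fn hK.cl hgen f g
    (fun i => ⟨(h i).deg₁, (h i).deg₂, (h i).tame⟩)
  refine ⟨i, j, hij, ?_, hr⟩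
  unfold SameClass
  rw [mk2, ConstM.mapK_sym, ConstM.mapK_sym]
  exact hE

end Pool.Agent.Results.MP_743d1e_nt.BoundedDegreeSymbols
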