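import Pool.Agent.Lib.MP_743d1e_nt.CY.TSK
import Pool.Agent.Lib.MP_743d1e_nt.CY.PUK
import Pool.Agent.Lib.MP_743d1e_nt.CY.SRK
import Pool.Agent.Lib.MP_743d1e_nt.CY.PRM

/-!
# Finiteness of `{K^*, h} ∩ K_2(X)` for every curve over every number field and every function `h`

Let `F` be a field that can be embedded into the field generated by a number field and all roots
of unity (for example `F` any number field), `K` the function field of a curve `X` over `F`
(finitely generated, of transcendence degree one, `F` algebraically closed in `K`), and let
`h ∈ K` be any nonconstant function.

Theorem. There are finitely many closed points `v_1, ..., v_r` of `X` such that EVERY symbol `{f, h}`,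
`f ∈ K^*`, whose tame symbols at all closed points of `X` are torsion and such that `f` has no zero
and no pole at the `v_i`, is torsion in `K_2(K)`. Consequently every group of elements of the form
`{f, h}` with torsion tame symbols (for example the group of all those that are unramified at all discrete
valuations of `K`, i.e. `{K^*, h}` intersected with `K_2` of a regular model) is finitely generated
modulo torsion.

Proof. `h = c u ^ k` with `c ∈ F` and `u` not of the form `d v ^ m`, `m ≥ 2`. If the tame symbol of `{f, h}` at
`v` is torsion and `v(f) ≠ 0` then `h(v)` is zero, infinity or a root of unity. If it is a root of unity of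
large order `n`, `v` is the only point above the closed point `p(u) = 0` of the line (`p` a factor of the
polynomial `Φ_n(c u ^ k)` over `F`); the symbol `{p(u) / p(0), h}` is torsion, and a combination of these
symbols makes the divisor of `f` zero at `v`.

For the uniqueness of `v` assume that there are two points for infinitely many `n`. The
decomposition fields of primes above `v` in the Galois closure then contain an element `y` whose
values at infinitely many points `α ζ`, `ζ` a root of unity, lie in `k ℚ^ab`, `k` a number field. By a theorem
of Loxton (these values have bounded conjugates, so they are sums of at most `L` roots of unity with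
coefficients from a fixed finite set) and of Mann (vanishing sums of roots of unity) `y` is a rational
function of `t` with `t ^ a = u`; a subfield of `K` that is also contained in `ℚ̄(t)` is `F(u)`, as `u` is
not `d v ^ m`, and this contradicts the existence of two points.
-/

set_option autoImplicit false

namespace Pool.Agent.Results.MP_743d1e_nt.FiniteRankAll

open MP743d1e MP743d1e.CY IntermediateField

theorem result (F K : Type) [Field F] [CharZero F] [Field K] [Algebra F K] (φ : F →+* ℂ)
    (k₀ : IntermediateField ℚ ℂ) (h : Kˣ) (hk₀ : FiniteDimensional ℚ k₀)
    (hφ : ∀ x, φ x ∈ kab k₀) (hh : Transcendental F (h : K))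
    (hfin : FiniteDimensional F⟮(h : K)⟯ K)
    (hc : ∀ z : K, IsAlgebraic F z → ∃ c : F, z = algebraMap F K c) :
    Pts F h ∧ ∀ A : AddSubgroup (K2 K), (∀ β ∈ A, TorTameF F β ∧ ∃ f : Kˣ, β = sym f h) →
      FGT A :=
  FINKM.both (specASK (specPUK specDEC specINT (specLCK specSRK specMAN specCOC) specNRM specCLK
    specGAL specGEN) specFNV specTSK specPRM) F K φ k₀ h hk₀ hφ hh hfin hc

end Pool.Agent.Results.MP_743d1e_nt.FiniteRankAll
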