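import Pool.Agent.Lib.MP_743d1e_nt.Strict.GA

/-!
# Integral elements of `K_2` of full rank for arrangements of graphs of polynomials

Let `D` be an arrangement of `m ≥ 1` vertical lines `x = a i` and `n ≥ 2` graphs `y = P j (x)`,
`a i ∈ ℤ`, `P j ∈ ℤ[x]` of arbitrary degrees, such that all crossings are transversal and have
integral abscissas and no three of these curves meet in one point: two of the graphs satisfy
`P j - P l = kap j l * ∏_{r ∈ R j l} (x - r)`. Let `e` be the number of crossings (`D.e`) and
`thr = 50 * n * e ^ (3 / 2)`. For a crossing with abscissa `c` on the `j`-th graph let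
`mu lam j c` be the explicit lower bound for `|lam * ∏ (x - a i) * ∏_{l ≠ j} (P j - P l)|` on the
circles around `c` of radius between `3 / 8` and `1 / 2`. If `mu lam j c ≥ Λ ≥ thr` for all
crossings, then the curve `lam * ∏ (x - a i) * ∏ (y - P j (x)) = 1` is geometrically irreducible of
genus `g = (m - 1) * (n - 1) + ∑_{j < l} |R j l|` (the first Betti number of the dual graph of the
arrangement); `g` explicit symbols are unramified at every discrete valuation of its function field
over `ℚ` and have a regulator matrix with respect to `g` loops which is equal to an explicit matrix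
of logarithms of integers up to `272 * n / Λ` and whose determinant is at least
`(2 * log Λ) ^ g` in absolute value.

The hypothesis with `Λ = thr` holds for all `lam ≠ 0` and all arrangements with
`m + n + d ≥ 24`, where `d` is the largest degree of a difference `P j - P l`. The other
arrangements have, for `lam ≠ 0` and up to the transformations `x → x + c`, `y → y + Q(x)`, only
finitely many exceptions in total.
-/

set_option autoImplicit false

namespace Pool.Agent.Results.MP_743d1e_nt.GraphArrangements

open Polynomial MP743d1e MP743d1e.GA

theorem result :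
    (∀ (D : Gr) (lam : ℤ) (Λ : ℝ), D.thr ≤ Λ → (∀ j c, D.Node j c → Λ ≤ D.mu lam j c) →
      FullRank D lam Λ) ∧
    (∀ (D : Gr) (lam : ℤ), lam ≠ 0 → 24 ≤ D.m + D.n + D.d → FullRank D lam D.thr) ∧
    {z : (Σ m n : ℕ, (Fin m → ℤ) × (Fin n → ℤ[X])) × ℤ | z.2 ≠ 0 ∧
      ∃ D : Gr, D.data = z.1 ∧ D.a D.i0 = 0 ∧ D.P D.j0 = 0 ∧ ¬ FullRank D z.2 D.thr}.Finite :=
  strict

end Pool.Agent.Results.MP_743d1e_nt.GraphArrangements
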