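import Pool.Agent.Lib.MP_743d1e_nt.CY.TSK
import Pool.Agent.Lib.MP_743d1e_nt.CY.PUK
import Pool.Agent.Lib.MP_743d1e_nt.CY.SRK
import Pool.Agent.Lib.MP_743d1e_nt.CY.PRM
import Pool.Agent.Lib.MP_743d1e_nt.RT.LJG
import Pool.Agent.Lib.MP_743d1e_nt.RT.MAT
import Pool.Agent.Lib.MP_743d1e_nt.RT.EXL
import Pool.Agent.Lib.MP_743d1e_nt.RT.TW3
import Pool.Agent.Lib.MP_743d1e_nt.RT.DVD
import Pool.Agent.Lib.MP_743d1e_nt.RT.UNQ
import Pool.Agent.Lib.MP_743d1e_nt.RT.PUG
import Pool.Agent.Lib.MP_743d1e_nt.RT.ASG

/-!
# Finiteness of the rank of `({K^*, x} + {K^*, y}) ∩ K_2(X)` for every curve over `ℚ`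

Let `K = ℚ(x, y)` be the function field of a curve `X` over `ℚ` (`ℚ` algebraically closed in `K`), `x`
and `y` arbitrary, and `G` the group of all elements `{f, x} + {g, y}`, `f, g ∈ K^*` arbitrary, whose
tame symbols at all closed points of `X` are torsion.

Theorem. If there is no automorphism of `K` with `x ↦ 1 / x`, `y ↦ 1 / y`, the group `G` has finite rank. If `σ` is
such an automorphism, the group `(1 + σ) G` has finite rank.

Proof. If `x` and `y` are multiplicatively dependent modulo constants, `K` is rational and all the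
elements are torsion. Otherwise `x = c₁ x' ^ α y' ^ β`, `y = c₂ x' ^ γ y' ^ δ`, where no `x' ^ a y' ^ b` with coprime
`a, b` is of the form `c u ^ m` with `c ∈ ℚ`, `m ≥ 2`. If the tame symbol is torsion at `v` and
`(v(f), v(g)) = m a`, `a` primitive, then `h_a = x ^ {a_1} y ^ {a_2}` is a root of unity of some order `n` at `v`;
`h_a = c u ^ k`. The main point is that for all but finitely many `a` and ALL `n` the point `v` is
determined by the value of `u` up to conjugation, outside a finite set and, if there is `σ`, outside the
points fixed by `σ`. If there are two such points, the Laurent polynomial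
`f(s) = P(ζ^{c_1} s^{b_1}, ζ^{c_2} s^{b_2})`, `P` the equation of `X`, factors over `ℚ(ζ)`, `f = g h`, where `g h^♯`
vanishes at one of the points and `(g h^♯)^♯` not at the other one (Ljunggren's trick). By Dedekind's
Prague theorem the products of the coefficients of `g` and `h` are integral, so each `|G_k| ^ 2`, `G = g h^♯`,
is a totally positive integer and `G` has a bounded number of terms. Therefore, for infinitely many
`a`, `G` comes from a Laurent polynomial `𝒢` in two variables with `𝒢 𝒢^♯ = P(z^N) P(z^{-N})`, and the equation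
of `(x', y')`, which stays irreducible under all isogenies of the torus, divides `𝒢` or `𝒢^♯`. For the
finitely many remaining `a` the uniqueness for large `n` follows from theorems of Loxton and Mann.
-/

set_option autoImplicit false

namespace Pool.Agent.Results.MP_743d1e_nt.RankTwoAll

open _root_.MP743d1e _root_.MP743d1e.CY _root_.MP743d1e.RT IntermediateField

theorem result (K : Type) [Field K] [Algebra ℚ K] (x y : Kˣ)
    (hK : ∃ t : K, Transcendental ℚ t ∧ FiniteDimensional ℚ⟮t⟯ K)
    (hc : ∀ z : K, IsAlgebraic ℚ z → ∃ c : ℚ, z = algebraMap ℚ K c)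
    (hgen : IntermediateField.adjoin ℚ {(x : K), (y : K)} = ⊤) : FinRankG K x y :=
  specASG (specPUG specLJG specCNT specEXL specTW3 specMAT specEQN specKUP specDVD specSUB specCN2
    specPTS specUNQ specFNV)
    (specPUK specDEC specINT (specLCK specSRK specMAN specCOC) specNRM specCLK specGAL specGEN)
    specFNV specTSK specSAT specDEP K x y hK hc hgen

end Pool.Agent.Results.MP_743d1e_nt.RankTwoAll
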